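import Mathlib

set_option autoImplicit false

open Filter Topology Metric Complex

namespace Pool.Agent.Results.MP_9404a8_an.Exceeds

/-- The class `S`. -/
def InS (f : ℂ → ℂ) : Prop :=
  DifferentiableOn ℂ f (ball 0 1) ∧ Set.InjOn f (ball 0 1) ∧ f 0 = 0 ∧ deriv f 0 = 1

/-- `F` is the holomorphic logarithm on the bidisc, vanishing at the origin, of the bracket. -/
def IsKernel (f : ℂ → ℂ) (F : ℂ → ℂ → ℂ) : Prop :=
  DifferentiableOn ℂ (fun p : ℂ × ℂ => F p.1 p.2) (ball 0 1 ×ˢ ball 0 1) ∧ F 0 0 = 0 ∧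
    ∀ z ∈ ball (0 : ℂ) 1, ∀ w ∈ ball (0 : ℂ) 1, z ≠ w → z ≠ 0 → w ≠ 0 →
      exp (F z w) = (f z - f w) / (z - w) * (z / f z) * (w / f w)

/-- `S^{[p,q]}(z)`. -/
noncomputable def schw (F : ℂ → ℂ → ℂ) (p q : ℕ) (z : ℂ) : ℂ :=
  iteratedDeriv p (fun u => iteratedDeriv q (F u) z) z

theorem slit {a : ℂ} (h : ‖a‖ < 1) : 1 + a ∈ slitPlane := mem_slitPlane_of_norm_lt_one h

theorem ne1 {a : ℂ} (h : ‖a‖ < 1) : 1 + a ≠ 0 := slitPlane_ne_zero (slit h)

theorem mul_lt {a b : ℂ} (ha : ‖a‖ < 1) (hb : ‖b‖ < 1) : ‖a * b‖ < 1 := by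
  rw [norm_mul]; exact mul_lt_one_of_nonneg_of_lt_one_left (norm_nonneg _) ha hb.le

/-- The parameter. -/
noncomputable def m : ℂ := -(199 / 200)

theorem hm : ‖m‖ < 1 := by norm_num [m]

/-- A disc automorphism. -/
noncomputable def φ (z : ℂ) : ℂ := (z + m) / (1 + m * z)

theorem hφ {z : ℂ} (h : ‖z‖ < 1) : ‖φ z‖ < 1 := by
  rw [φ, norm_div, div_lt_one (norm_pos_iff.2 (ne1 (mul_lt hm h))),
    ← sq_lt_sq₀ (norm_nonneg _) (norm_nonneg _), Complex.sq_norm, Complex.sq_norm]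
  have h1 : normSq z < 1 := by rw [← Complex.sq_norm]; nlinarith [norm_nonneg z]
  simp [normSq_apply, m] at h1 ⊢
  nlinarith

theorem result : ∃ f : ℂ → ℂ, InS f ∧ ∃ F : ℂ → ℂ → ℂ, IsKernel f F ∧
    ∃ z ∈ ball (0 : ℂ) 1, ((1 + 2 - 1 : ℕ).factorial : ℝ) < ‖schw F 1 2 z‖ * (1 - ‖z‖ ^ 2) ^ (1 + 2) := by
  have hd : ∀ {z : ℂ}, ‖z‖ < 1 → 1 - z ^ 2 ≠ 0 := fun {z} h => by
    have := ne1 (mul_lt (a := -z) (by simpa using h) h)
    convert this using 1; ring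
  have hq : ∀ {z w : ℂ}, ‖z‖ < 1 → ‖w‖ < 1 →
      (z + m * z ^ 2) / (1 - z ^ 2) - (w + m * w ^ 2) / (1 - w ^ 2) =
        (z - w) * ((1 + m * z) * (1 + w * φ z)) / ((1 - z ^ 2) * (1 - w ^ 2)) := fun {z w} h1 h2 => by
    have := hd h1
    have := hd h2
    have := ne1 (mul_lt hm h1)
    have e : (1 + m * z) * (1 + w * φ z) = 1 + m * z + w * (z + m) := by
      rw [φ, mul_add, mul_one, mul_left_comm, mul_div_cancel₀ _ this]
    rw [e]; field_simp; ring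
  refine ⟨fun z => (z + m * z ^ 2) / (1 - z ^ 2), ⟨?_, fun z hz w hw h => ?_, by simp, ?_⟩,
    fun z w => log (1 + w * φ z) - log (1 + m * w), ⟨?_, by simp, fun z hz w hw h h1 h2 => ?_⟩,
    43 / 50, by norm_num, ?_⟩
  · exact DifferentiableOn.div (by fun_prop) (by fun_prop) fun z hz => hd (by simpa using hz)
  · rw [mem_ball_zero_iff] at hz hw
    have h1 := hq hz hw
    rw [sub_eq_zero.2 h, eq_comm, div_eq_zero_iff, mul_eq_zero, mul_eq_zero, mul_eq_zero] at h1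
    rcases h1 with (h1 | h1 | h1) | h1 | h1
    exacts [sub_eq_zero.1 h1, absurd h1 (ne1 (mul_lt hm hz)), absurd h1 (ne1 (mul_lt hw (hφ hz))),
      absurd h1 (hd hz), absurd h1 (hd hw)]
  · have := (((hasDerivAt_id (0 : ℂ)).add ((hasDerivAt_pow 2 0).const_mul m)).div
      ((hasDerivAt_pow 2 0).const_sub 1) (by simp)).deriv
    exact this.trans (by simp)
  · rintro ⟨z, w⟩ ⟨hz, hw⟩
    simp only [mem_ball_zero_iff] at hz hw
    have := ne1 (mul_lt hm hz)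
    refine DifferentiableAt.differentiableWithinAt (DifferentiableAt.sub
      (DifferentiableAt.clog ?_ (slit (mul_lt hw (hφ hz))))
      (DifferentiableAt.clog (by fun_prop) (slit (mul_lt hm hw))))
    simp only [φ]; fun_prop (disch := assumption)
  · rw [mem_ball_zero_iff] at hz hw
    have a1 := ne1 (mul_lt hm hz)
    have a2 := ne1 (mul_lt hm hw)
    have a3 := hd hz
    have a4 := hd hw
    have a5 := sub_ne_zero.2 h
    have e : ∀ z : ℂ, z + m * z ^ 2 = z * (1 + m * z) := fun z => by ring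
    rw [exp_sub, exp_log (ne1 (mul_lt hw (hφ hz))), exp_log a2]
    simp only
    rw [hq hz hw, e, e]
    field_simp
  have key : ∀ a : ℂ, ‖a‖ < 1 → ∀ w : ℂ, ‖w‖ < 1 →
      HasDerivAt (fun w => log (1 + w * a)) (a / (1 + w * a)) w ∧
      HasDerivAt (fun w => a / (1 + w * a)) (-a ^ 2 / (1 + w * a) ^ 2) w := fun a ha w hw => by
    have h := ((hasDerivAt_id w).mul_const a).const_add 1
    refine ⟨by simpa using h.clog (slit (mul_lt hw ha)), ?_⟩
    convert! (hasDerivAt_const w a).div h (ne1 (mul_lt hw ha)) using 1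
    simp; ring
  have hb : ∀ {w : ℂ}, ‖w‖ < 1 → ∀ᶠ u in 𝓝 w, ‖u‖ < 1 := fun h =>
    continuous_norm.continuousAt.eventually_lt continuousAt_const h
  have hr : ‖(43 / 50 : ℂ)‖ < 1 := by norm_num
  have h2 : ∀ u : ℂ, ‖u‖ < 1 → iteratedDeriv 2 (fun w => log (1 + w * φ u) - log (1 + m * w))
      (43 / 50) = -φ u ^ 2 / (1 + 43 / 50 * φ u) ^ 2 - -m ^ 2 / (1 + 43 / 50 * m) ^ 2 := fun u hu => by
    rw [iteratedDeriv_succ, iteratedDeriv_one, Filter.EventuallyEq.deriv_eq ((hb hr).mono fun w hw =>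
      ((key _ (hφ hu) w hw).1.fun_sub (by simpa only [mul_comm m] using (key _ hm w hw).1)).deriv)]
    exact ((key _ (hφ hu) _ hr).2.fun_sub (key _ hm _ hr).2).deriv
  have h3 : HasDerivAt φ ((1 - m ^ 2) / (1 + m * (43 / 50)) ^ 2) (43 / 50) := by
    convert! ((hasDerivAt_id _).add_const m).div (((hasDerivAt_id _).const_mul m).const_add 1)
      (ne1 (mul_lt hm hr)) using 1
    simp; ring
  have h4 := (((h3.fun_pow 2).fun_neg.fun_div (((h3.const_mul (43 / 50)).const_add 1).fun_pow 2)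
    (pow_ne_zero _ (ne1 (mul_lt hr (hφ hr))))).sub_const (-m ^ 2 / (1 + 43 / 50 * m) ^ 2)).deriv
  rw [schw, iteratedDeriv_one, Filter.EventuallyEq.deriv_eq ((hb hr).mono h2), h4]
  norm_num [φ, m]

end Pool.Agent.Results.MP_9404a8_an.Exceeds
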